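import Pool.Agent.P8H58.KM.Stm

/-!
Project KM, package LCONJ: the sum `Lsum` is invariant under conjugation.
-/

set_option autoImplicit false

open scoped Classical

noncomputable section

namespace Pool.Agent.P8H84.KM

open Pool.Agent.Y63.NV
open Pool.Agent.Y63.KR (conjSub)

section
variable {Γ : Type} [Group Γ]

theorem mem_cs (g : Γ) (H : Subgroup Γ) (y : Γ) : y ∈ conjSub g H ↔ g⁻¹ * y * g ∈ H := by
  constructor
  · rintro ⟨x, hx, rfl⟩
    show g⁻¹ * (g * x * g⁻¹) * g ∈ H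
    have : g⁻¹ * (g * x * g⁻¹) * g = x := by group
    rw [this]; exact hx
  · intro h
    exact ⟨_, h, by show g * (g⁻¹ * y * g) * g⁻¹ = y; group⟩

/-- conjugation by `g` -/
def cje (g : Γ) (H : Subgroup Γ) :
    (⊤ ⊓ H : Subgroup Γ) ≃* (⊤ ⊓ conjSub g H : Subgroup Γ) where
  toFun x := ⟨g * x * g⁻¹, Subgroup.mem_inf.mpr ⟨Subgroup.mem_top _, (mem_cs g H _).mpr (by
    have : g⁻¹ * (g * (x : Γ) * g⁻¹) * g = x := by group
    rw [this]; exact (Subgroup.mem_inf.mp x.2).2)⟩⟩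
  invFun y := ⟨g⁻¹ * y * g, Subgroup.mem_inf.mpr ⟨Subgroup.mem_top _,
    (mem_cs g H _).mp (Subgroup.mem_inf.mp y.2).2⟩⟩
  left_inv x := Subtype.ext (by
    show g⁻¹ * (g * (x : Γ) * g⁻¹) * g = x; group)
  right_inv y := Subtype.ext (by
    show g * (g⁻¹ * (y : Γ) * g) * g⁻¹ = y; group)
  map_mul' x y := Subtype.ext (by
    show g * ((x : Γ) * y) * g⁻¹ = (g * x * g⁻¹) * (g * y * g⁻¹); group)

theorem cje_val (g : Γ) (H : Subgroup Γ) (x : (⊤ ⊓ H : Subgroup Γ)) :
    ((cje g H x : (⊤ ⊓ conjSub g H : Subgroup Γ)) : Γ) = g * x * g⁻¹ := rfl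

theorem card_cs (g : Γ) (H : Subgroup Γ) : Nat.card (conjSub g H) = Nat.card H :=
  (Nat.card_congr (H.equivMapOfInjective _ (MulAut.conj g).injective).toEquiv).symm

end

theorem lconj : Pool.Agent.P8H58.KM.S_LCONJ := by
  intro F _ Γ _ _ z c hz g H
  unfold Lsum
  rw [if_pos (top_sup_eq _), if_pos (top_sup_eq _), card_cs]
  congr 2
  symm
  refine Pool.Agent.Y210.NV2.lnum_congr (⊤ ⊓ H) H (⊤ ⊓ conjSub g H) (conjSub g H)
    (cut z H) (cut z (conjSub g H)) c (cje g H) ?_ ?_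
  · intro x
    have h1 : g * (x : Γ) * g⁻¹ ∈ conjSub g H := (Subgroup.mem_inf.mp (cje g H x).2).2
    unfold cut
    rw [cje_val, if_pos (Subgroup.mem_inf.mp x.2).2, if_pos h1]
    exact hz g x
  · intro φ
    constructor
    · intro h k hk x y hxy
      refine h (g * k * g⁻¹) ((mem_cs g H _).mpr ?_) (cje g H x) (cje g H y) ?_
      · have : g⁻¹ * (g * k * g⁻¹) * g = k := by group
        rw [this]; exact hk
      · rw [cje_val, cje_val, hxy]
        group
    · intro h k hk x y hxy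
      have h1 := h (g⁻¹ * k * g) ((mem_cs g H _).mp hk) ((cje g H).symm x) ((cje g H).symm y) (by
        show g⁻¹ * (y : Γ) * g = g⁻¹ * k * g * (g⁻¹ * (x : Γ) * g) * (g⁻¹ * k * g)⁻¹
        rw [hxy]
        group)
      simp only [MulEquiv.apply_symm_apply] at h1
      exact h1

end Pool.Agent.P8H84.KM
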